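import Mathlib

/-!
# Divisibility of the sum of identical dice

For every `n`, every finite `F` and `f : F → ℤ`,
`|F| ^ n ≤ 2 ^ (n - 1) * #{x : Fin n → F | n ∣ ∑ i, f (x i)}`.
-/

namespace Pool.Agent.V11199.DC

open Finset
open scoped Pointwise

universe u

/-- the tuples of faces whose label sum is divisible by `n`. -/
def good (n : ℕ) {F : Type u} [Fintype F] (f : F → ℤ) : Finset (Fin n → F) :=
  univ.filter (fun x => (n : ℤ) ∣ ∑ i, f (x i))

/-- the counting form of the bound, for all finite types in a universe. -/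
def P (n : ℕ) : Prop :=
  ∀ (F : Type u) [Fintype F] (f : F → ℤ),
    (Fintype.card F) ^ n ≤ 2 ^ (n - 1) * (good n f).card

theorem P_zero : P.{u} 0 := by
  intro F _ f
  simp [good]

theorem P_one : P.{u} 1 := by
  intro F _ f
  have : good 1 f = univ := by
    unfold good
    rw [Finset.filter_true_of_mem]
    intro x _
    simp
  rw [this]
  simp

theorem mem_good {n : ℕ} {F : Type u} [Fintype F] {f : F → ℤ} {x : Fin n → F} :
    x ∈ good n f ↔ (n : ℤ) ∣ ∑ i, f (x i) := by
  unfold good
  rw [Finset.mem_filter]
  exact ⟨fun h => h.2, fun h => ⟨mem_univ _, h⟩⟩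

/-! ## Multiplicativity -/

theorem P_mul (a b : ℕ) (ha : 1 ≤ a) (hb : 1 ≤ b) (hPa : P.{u} a) (hPb : P.{u} b) :
    P.{u} (b * a) := by
  classical
  intro F _ f
  let F' := {y : Fin a → F // y ∈ good a f}
  let f' : F' → ℤ := fun y => (∑ i, f (y.1 i)) / a
  have hF' : Fintype.card F' = (good a f).card := by
    simp [F']
  have h1 := hPa F f
  have h2 := hPb F' f'
  rw [hF'] at h2
  have hf' : ∀ y : F', (∑ i, f (y.1 i)) = (a : ℤ) * f' y := by
    intro y
    have : (a : ℤ) ∣ ∑ i, f (y.1 i) := mem_good.mp y.2
    exact (Int.mul_ediv_cancel' this).symm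
  -- the injection
  let φ : (Fin b → F') → (Fin (b * a) → F) := fun z k =>
    (z (finProdFinEquiv.symm k).1).1 (finProdFinEquiv.symm k).2
  have hφ : Function.Injective φ := by
    intro z z' h
    funext j
    apply Subtype.ext
    funext i
    have := congrFun h (finProdFinEquiv (j, i))
    simp only [φ, Equiv.symm_apply_apply] at this
    exact this
  have hsum : ∀ z : Fin b → F', ∑ k, f (φ z k) = (a : ℤ) * ∑ j, f' (z j) := by
    intro z
    rw [← (finProdFinEquiv (m := b) (n := a)).sum_comp]
    simp only [φ, Equiv.symm_apply_apply]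
    rw [Fintype.sum_prod_type]
    simp only [hf']
    rw [Finset.mul_sum]
  have h3 : (good b f').card ≤ (good (b * a) f).card := by
    apply Finset.card_le_card_of_injOn φ
    · intro z hz
      rw [Finset.mem_coe, mem_good] at hz ⊢
      rw [hsum z]
      push_cast
      rw [mul_comm (b : ℤ) (a : ℤ)]
      exact mul_dvd_mul_left _ hz
    · exact hφ.injOn
  calc (Fintype.card F) ^ (b * a) = ((Fintype.card F) ^ a) ^ b := by
        rw [← pow_mul, mul_comm]
    _ ≤ (2 ^ (a - 1) * (good a f).card) ^ b := Nat.pow_le_pow_left h1 b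
    _ = 2 ^ ((a - 1) * b) * (good a f).card ^ b := by rw [mul_pow, ← pow_mul]
    _ ≤ 2 ^ ((a - 1) * b) * (2 ^ (b - 1) * (good b f').card) := Nat.mul_le_mul_left _ h2
    _ = 2 ^ (b * a - 1) * (good b f').card := by
        rw [← mul_assoc, ← pow_add]
        congr 2
        obtain ⟨a', rfl⟩ : ∃ a', a = a' + 1 := ⟨a - 1, by omega⟩
        obtain ⟨b', rfl⟩ : ∃ b', b = b' + 1 := ⟨b - 1, by omega⟩
        simp only [Nat.add_sub_cancel]
        have : (b' + 1) * (a' + 1) = a' * (b' + 1) + b' + 1 := by ring
        omega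
    _ ≤ 2 ^ (b * a - 1) * (good (b * a) f).card := Nat.mul_le_mul_left _ h3

/-! ## The cover lemma -/

/-- the subset sums of `d` over `T`. -/
def SS {ι : Type*} [DecidableEq ι] {p : ℕ} (d : ι → ZMod p) (T : Finset ι) : Finset (ZMod p) :=
  T.powerset.image (fun s => ∑ i ∈ s, d i)

theorem mem_SS {ι : Type*} [DecidableEq ι] {p : ℕ} (d : ι → ZMod p) (T : Finset ι) (t : ZMod p) :
    t ∈ SS d T ↔ ∃ s ⊆ T, ∑ i ∈ s, d i = t := by
  unfold SS
  rw [Finset.mem_image]
  constructor
  · rintro ⟨s, hs, h⟩
    exact ⟨s, Finset.mem_powerset.mp hs, h⟩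
  · rintro ⟨s, hs, h⟩
    exact ⟨s, Finset.mem_powerset.mpr hs, h⟩

theorem cover {ι : Type*} [DecidableEq ι] (p : ℕ) (hp : p.Prime) (d : ι → ZMod p)
    (T : Finset ι) (hd : ∀ i ∈ T, d i ≠ 0) :
    min p (T.card + 1) ≤ (SS d T).card := by
  induction T using Finset.induction_on with
  | empty => simp [SS]
  | insert a T haT ih =>
    have ih' := ih (fun i hi => hd i (Finset.mem_insert_of_mem hi))
    have hda : d a ≠ 0 := hd a (Finset.mem_insert_self _ _)
    have hne1 : (SS d T).Nonempty := ⟨0, (mem_SS d T 0).mpr ⟨∅, by simp, by simp⟩⟩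
    have hne2 : ({0, d a} : Finset (ZMod p)).Nonempty := ⟨0, by simp⟩
    have hCD := ZMod.cauchy_davenport hp hne1 hne2
    have hc2 : ({0, d a} : Finset (ZMod p)).card = 2 := by
      rw [Finset.card_pair hda.symm]
    rw [hc2] at hCD
    have hsub : SS d T + {0, d a} ⊆ SS d (insert a T) := by
      intro x hx
      rw [Finset.mem_add] at hx
      obtain ⟨y, hy, z, hz, rfl⟩ := hx
      rw [mem_SS] at hy
      obtain ⟨s, hs, rfl⟩ := hy
      rw [mem_SS]
      rw [Finset.mem_insert, Finset.mem_singleton] at hz
      rcases hz with rfl | rfl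
      · exact ⟨s, hs.trans (Finset.subset_insert _ _), by simp⟩
      · refine ⟨insert a s, Finset.insert_subset_insert _ hs, ?_⟩
        rw [Finset.sum_insert (fun h => haT (hs h)), add_comm]
    have hle := Finset.card_le_card hsub
    rw [Finset.card_insert_of_notMem haT]
    omega

theorem cover_all {ι : Type*} [DecidableEq ι] (p : ℕ) (hp : p.Prime) (d : ι → ZMod p)
    (T : Finset ι) (hT : p ≤ T.card + 1) (hd : ∀ i ∈ T, d i ≠ 0) (t : ZMod p) :
    ∃ s ⊆ T, ∑ i ∈ s, d i = t := by
  have : NeZero p := ⟨hp.ne_zero⟩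
  have h := cover p hp d T hd
  rw [min_eq_left hT] at h
  have huniv : SS d T = univ := by
    apply Finset.eq_univ_of_card
    rw [ZMod.card]
    apply le_antisymm _ h
    have := Finset.card_le_univ (SS d T)
    rwa [ZMod.card] at this
  rw [← mem_SS, huniv]
  exact mem_univ _

/-! ## Prime case A: no residue class has more than half of the faces -/

theorem mem_good_iff {p : ℕ} {F : Type u} [Fintype F] {f : F → ℤ} {x : Fin p → F} :
    x ∈ good p f ↔ ∑ i, ((f (x i) : ℤ) : ZMod p) = 0 := by
  rw [mem_good, ← ZMod.intCast_zmod_eq_zero_iff_dvd]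
  push_cast
  rfl

theorem caseA (p : ℕ) (hp : p.Prime) (F : Type u) [Fintype F] (f : F → ℤ)
    (hA : ∀ r : ZMod p, 2 * (univ.filter (fun x : F => ((f x : ℤ) : ZMod p) = r)).card
      ≤ Fintype.card F) :
    (Fintype.card F) ^ p ≤ 2 ^ (p - 1) * (good p f).card := by
  classical
  -- Hall
  let g : F → ZMod p := fun x => ((f x : ℤ) : ZMod p)
  obtain ⟨σ, hσinj, hσ⟩ : ∃ σ : F → F, Function.Injective σ ∧ ∀ x, g (σ x) ≠ g x := by
    have hall := (Finset.all_card_le_biUnion_card_iff_exists_injective
      (fun x : F => univ.filter (fun y : F => g y ≠ g x))).mp ?_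
    · obtain ⟨σ, h1, h2⟩ := hall
      refine ⟨σ, h1, fun x => ?_⟩
      have := h2 x
      rw [Finset.mem_filter] at this
      exact this.2
    · intro S
      rcases S.eq_empty_or_nonempty with rfl | ⟨s0, hs0⟩
      · simp
      by_cases hall : ∀ s ∈ S, g s = g s0
      · have h1 : S ⊆ univ.filter (fun x : F => ((f x : ℤ) : ZMod p) = g s0) := by
          intro s hs
          rw [Finset.mem_filter]
          exact ⟨mem_univ _, hall s hs⟩
        have h2 := Finset.card_le_card h1
        have h3 := hA (g s0)
        have h4 : (univ.filter (fun y : F => g y ≠ g s0)) ⊆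
            S.biUnion (fun x : F => univ.filter (fun y : F => g y ≠ g x)) :=
          Finset.subset_biUnion_of_mem (fun x : F => univ.filter (fun y : F => g y ≠ g x)) hs0
        have h5 := Finset.card_le_card h4
        have h6 := Finset.card_filter_add_card_filter_not (s := (univ : Finset F))
          (fun y : F => g y = g s0)
        rw [Finset.card_univ] at h6
        have h7 : (univ.filter (fun x : F => ((f x : ℤ) : ZMod p) = g s0)).card
          = (univ.filter (fun y : F => g y = g s0)).card := rfl
        have h8 : (univ.filter (fun y : F => g y ≠ g s0)).card =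
          (univ.filter (fun y : F => ¬ g y = g s0)).card := rfl
        omega
      · push Not at hall
        obtain ⟨s1, hs1, hne⟩ := hall
        have : S.biUnion (fun x : F => univ.filter (fun y : F => g y ≠ g x)) = univ := by
          apply Finset.eq_univ_of_forall
          intro y
          rw [Finset.mem_biUnion]
          by_cases hy : g y = g s0
          · exact ⟨s1, hs1, by
              rw [Finset.mem_filter]
              exact ⟨mem_univ _, by rw [hy]; exact hne.symm⟩⟩
          · exact ⟨s0, hs0, by
              rw [Finset.mem_filter]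
              exact ⟨mem_univ _, hy⟩⟩
        rw [this]
        exact Finset.card_le_univ S
  -- flips
  let fl : Finset (Fin p) → (Fin p → F) → (Fin p → F) := fun I x i =>
    if i ∈ I then σ (x i) else x i
  have hflinj : ∀ I, Function.Injective (fl I) := by
    intro I x y h
    funext i
    have := congrFun h i
    simp only [fl] at this
    by_cases hi : i ∈ I
    · rw [if_pos hi, if_pos hi] at this
      exact hσinj this
    · rw [if_neg hi, if_neg hi] at this
      exact this
  have hflbij : ∀ I, Function.Bijective (fl I) := fun I =>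
    Finite.injective_iff_bijective.mp (hflinj I)
  have hcount1 : ∀ I, (univ.filter (fun x : Fin p → F => fl I x ∈ good p f)).card
      = (good p f).card := by
    intro I
    apply Finset.card_bij (fun x _ => fl I x)
    · intro x hx
      rw [Finset.mem_filter] at hx
      exact hx.2
    · intro x _ y _ h
      exact hflinj I h
    · intro y hy
      obtain ⟨x, hx⟩ := (hflbij I).2 y
      exact ⟨x, by rw [Finset.mem_filter]; exact ⟨mem_univ _, by rw [hx]; exact hy⟩, hx⟩
  have hflsum : ∀ I x, ∑ i, g (fl I x i) = ∑ i, g (x i) + ∑ i ∈ I, (g (σ (x i)) - g (x i)) := by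
    intro I x
    have h1 : ∀ i, g (fl I x i) = g (x i) + (if i ∈ I then (g (σ (x i)) - g (x i)) else 0) := by
      intro i
      simp only [fl]
      by_cases hi : i ∈ I
      · rw [if_pos hi, if_pos hi]; ring
      · rw [if_neg hi, if_neg hi]; ring
    rw [Finset.sum_congr rfl (fun i _ => h1 i), Finset.sum_add_distrib]
    congr 1
    rw [Finset.sum_ite_mem, Finset.univ_inter]
  have hppos := hp.pos
  let i0 : Fin p := ⟨0, hppos⟩
  have hcount2 : ∀ x : Fin p → F, 2 ≤ (univ.filter (fun I : Finset (Fin p) =>
      fl I x ∈ good p f)).card := by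
    intro x
    have hT : p ≤ (univ.erase i0).card + 1 := by
      rw [Finset.card_erase_of_mem (mem_univ _), Finset.card_univ, Fintype.card_fin]
      omega
    have hcov := cover_all p hp (fun i => g (σ (x i)) - g (x i)) (univ.erase i0) hT
      (fun i _ => sub_ne_zero.mpr (hσ (x i)))
    obtain ⟨I1, hI1, hs1⟩ := hcov (-∑ i, g (x i))
    obtain ⟨I2, hI2, hs2⟩ := hcov (-∑ i, g (x i) - (g (σ (x i0)) - g (x i0)))
    have hi1 : i0 ∉ I1 := fun h => Finset.notMem_erase i0 _ (hI1 h)
    have hi2 : i0 ∉ I2 := fun h => Finset.notMem_erase i0 _ (hI2 h)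
    have hne : I1 ≠ insert i0 I2 := by
      intro h
      apply hi1
      rw [h]
      exact Finset.mem_insert_self _ _
    have hsub : ({I1, insert i0 I2} : Finset (Finset (Fin p))) ⊆
        univ.filter (fun I : Finset (Fin p) => fl I x ∈ good p f) := by
      intro I hI
      rw [Finset.mem_insert, Finset.mem_singleton] at hI
      rw [Finset.mem_filter]
      refine ⟨mem_univ _, ?_⟩
      rw [mem_good_iff]
      have hfs := hflsum I x
      show ∑ i, g (fl I x i) = 0
      rw [hfs]
      rcases hI with rfl | rfl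
      · rw [hs1]; ring
      · rw [Finset.sum_insert hi2, hs2]; ring
    have := Finset.card_le_card hsub
    rw [Finset.card_pair hne] at this
    exact this
  -- double counting
  have hdc : ∑ x : Fin p → F, (univ.filter (fun I : Finset (Fin p) =>
      fl I x ∈ good p f)).card = ∑ I : Finset (Fin p),
      (univ.filter (fun x : Fin p → F => fl I x ∈ good p f)).card := by
    simp only [Finset.card_filter]
    rw [Finset.sum_comm]
  have hR : ∑ I : Finset (Fin p),
      (univ.filter (fun x : Fin p → F => fl I x ∈ good p f)).card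
      = 2 ^ p * (good p f).card := by
    rw [Finset.sum_congr rfl (fun I _ => hcount1 I)]
    simp
  have hL : 2 * (Fintype.card F) ^ p ≤ ∑ x : Fin p → F, (univ.filter (fun I : Finset (Fin p) =>
      fl I x ∈ good p f)).card := by
    calc 2 * (Fintype.card F) ^ p = ∑ x : Fin p → F, 2 := by
          simp [mul_comm]
      _ ≤ _ := Finset.sum_le_sum (fun x _ => hcount2 x)
  rw [hdc, hR] at hL
  have : 2 ^ p = 2 * 2 ^ (p - 1) := by
    rw [← pow_succ', Nat.sub_add_cancel hp.one_le]
  rw [this, mul_assoc] at hL
  exact Nat.le_of_mul_le_mul_left hL (by norm_num)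

/-! ## Prime case B: some residue class has more than half of the faces -/

theorem caseB (p : ℕ) (hp : p.Prime) (F : Type u) [Fintype F] (f : F → ℤ)
    (r : ZMod p) (hB : Fintype.card F < 2 * (univ.filter (fun x : F => ((f x : ℤ) : ZMod p) = r)).card) :
    (Fintype.card F) ^ p ≤ 2 ^ (p - 1) * (good p f).card := by
  classical
  let g : F → ZMod p := fun x => ((f x : ℤ) : ZMod p)
  let A := {x : F // g x = r}
  let B := {x : F // ¬ g x = r}
  have hAB : Fintype.card A + Fintype.card B = Fintype.card F := by
    have := Fintype.card_subtype_compl (fun x : F => g x = r)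
    have h2 := Fintype.card_subtype_le (fun x : F => g x = r)
    show Fintype.card {x : F // g x = r} + Fintype.card {x : F // ¬ g x = r} = _
    omega
  have hAc : Fintype.card A = (univ.filter (fun x : F => ((f x : ℤ) : ZMod p) = r)).card :=
    Fintype.card_subtype _
  have hBA : Fintype.card B ≤ Fintype.card A := by omega
  obtain ⟨τ⟩ : Nonempty (B ↪ A) := Function.Embedding.nonempty_of_card_le hBA
  have hppos := hp.pos
  let i0 : Fin p := ⟨0, hppos⟩
  -- choice of the index set
  have hI : ∀ y : Fin p → B, ∃ I : Finset (Fin p), i0 ∈ I ∧ ∑ i ∈ I, (g (y i).1 - r) = 0 := by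
    intro y
    have hT : p ≤ (univ.erase i0).card + 1 := by
      rw [Finset.card_erase_of_mem (mem_univ _), Finset.card_univ, Fintype.card_fin]
      omega
    obtain ⟨I, hI, hs⟩ := cover_all p hp (fun i => g (y i).1 - r) (univ.erase i0) hT
      (fun i _ => sub_ne_zero.mpr (y i).2) (-(g (y i0).1 - r))
    have hi0 : i0 ∉ I := fun h => Finset.notMem_erase i0 _ (hI h)
    refine ⟨insert i0 I, Finset.mem_insert_self _ _, ?_⟩
    rw [Finset.sum_insert hi0, hs]
    ring
  choose Iy hIy0 hIys using hI
  let ψ : (Fin p → B) → (Fin p → F) := fun y i => if i ∈ Iy y then (y i).1 else (τ (y i)).1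
  have hψinj : Function.Injective ψ := by
    intro y y' h
    funext i
    have hi := congrFun h i
    simp only [ψ] at hi
    by_cases h1 : i ∈ Iy y
    · by_cases h2 : i ∈ Iy y'
      · rw [if_pos h1, if_pos h2] at hi
        exact Subtype.ext hi
      · rw [if_pos h1, if_neg h2] at hi
        exact absurd (by rw [hi]; exact (τ (y' i)).2) (y i).2
    · by_cases h2 : i ∈ Iy y'
      · rw [if_neg h1, if_pos h2] at hi
        exact absurd (by rw [← hi]; exact (τ (y i)).2) (y' i).2
      · rw [if_neg h1, if_neg h2] at hi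
        exact τ.injective (Subtype.ext hi)
  have hψgood : ∀ y, ψ y ∈ good p f := by
    intro y
    rw [mem_good_iff]
    show ∑ i, g (ψ y i) = 0
    have h1 : ∀ i, g (ψ y i) = r + (if i ∈ Iy y then (g (y i).1 - r) else 0) := by
      intro i
      simp only [ψ]
      by_cases hi : i ∈ Iy y
      · rw [if_pos hi, if_pos hi]; ring
      · rw [if_neg hi, if_neg hi, (τ (y i)).2]; ring
    rw [Finset.sum_congr rfl (fun i _ => h1 i), Finset.sum_add_distrib, Finset.sum_ite_mem,
      Finset.univ_inter, hIys y]
    simp
  let χ : (Fin p → A) → (Fin p → F) := fun y i => (y i).1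
  have hχinj : Function.Injective χ := by
    intro y y' h
    funext i
    exact Subtype.ext (congrFun h i)
  have hχgood : ∀ y, χ y ∈ good p f := by
    intro y
    rw [mem_good_iff]
    show ∑ i, g (χ y i) = 0
    have h1 : ∀ i, g (χ y i) = r := fun i => (y i).2
    rw [Finset.sum_congr rfl (fun i _ => h1 i)]
    simp
  have hne : ∀ y y', χ y ≠ ψ y' := by
    intro y y' h
    have hi := congrFun h i0
    simp only [ψ, χ] at hi
    rw [if_pos (hIy0 y')] at hi
    exact (y' i0).2 (by rw [← hi]; exact (y i0).2)
  have hcard : Fintype.card A ^ p + Fintype.card B ^ p ≤ (good p f).card := by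
    have h1 : Fintype.card ((Fin p → A) ⊕ (Fin p → B)) ≤ Fintype.card {x // x ∈ good p f} := by
      apply Fintype.card_le_of_injective
        (fun s : (Fin p → A) ⊕ (Fin p → B) => (Sum.elim
          (fun y => (⟨χ y, hχgood y⟩ : {x // x ∈ good p f}))
          (fun y => (⟨ψ y, hψgood y⟩ : {x // x ∈ good p f})) s))
      intro s t h
      rcases s with s | s <;> rcases t with t | t
      · simp only [Sum.elim_inl, Subtype.mk.injEq] at h
        rw [hχinj h]
      · simp only [Sum.elim_inl, Sum.elim_inr, Subtype.mk.injEq] at h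
        exact absurd h (hne s t)
      · simp only [Sum.elim_inl, Sum.elim_inr, Subtype.mk.injEq] at h
        exact absurd h.symm (hne t s)
      · simp only [Sum.elim_inr, Subtype.mk.injEq] at h
        rw [hψinj h]
    simpa using h1
  calc (Fintype.card F) ^ p = (Fintype.card A + Fintype.card B) ^ p := by rw [hAB]
    _ ≤ 2 ^ (p - 1) * (Fintype.card A ^ p + Fintype.card B ^ p) :=
        add_pow_le (Nat.zero_le _) (Nat.zero_le _) p
    _ ≤ 2 ^ (p - 1) * (good p f).card := Nat.mul_le_mul_left _ hcard

theorem P_prime (p : ℕ) (hp : p.Prime) : P.{u} p := by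
  classical
  intro F _ f
  by_cases h : ∀ r : ZMod p, 2 * (univ.filter (fun x : F => ((f x : ℤ) : ZMod p) = r)).card
      ≤ Fintype.card F
  · exact caseA p hp F f h
  · push Not at h
    obtain ⟨r, hr⟩ := h
    exact caseB p hp F f r hr

theorem P_all (n : ℕ) : P.{u} n := by
  induction n using Nat.recOnMul with
  | zero => exact P_zero
  | one => exact P_one
  | prime p hp => exact P_prime p hp
  | mul a b iha ihb =>
    rcases Nat.eq_zero_or_pos a with rfl | ha
    · rw [zero_mul]; exact P_zero
    rcases Nat.eq_zero_or_pos b with rfl | hb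
    · rw [mul_zero]; exact P_zero
    exact P_mul b a hb ha ihb iha

end Pool.Agent.V11199.DC
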